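import Mathlib

set_option autoImplicit false

open Set Filter Topology

namespace Pool.Agent.Results.MP_23bd8d_gt.SeparablePart

/-- `C_p(X)`: continuous real functions with the topology of pointwise convergence. -/
abbrev Cp (X : Type*) [TopologicalSpace X] : Type _ := {f : X → ℝ // Continuous f}

variable {X : Type*} [TopologicalSpace X]

lemma tendsto_cp {ι : Type*} {l : Filter ι} (u : ι → Cp X) (f : Cp X) :
    Tendsto u l (𝓝 f) ↔ ∀ x, Tendsto (fun i => (u i).1 x) l (𝓝 (f.1 x)) := by
  rw [tendsto_subtype_rng, tendsto_pi_nhds]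

/-- `f` plus the difference `h - f` cut off at `-1` and `1` -/
noncomputable def cl (f h : Cp X) : Cp X :=
  ⟨fun x => f.1 x + max (-1) (min 1 (h.1 x - f.1 x)),
    f.2.add (continuous_const.max (continuous_const.min (h.2.sub f.2)))⟩

lemma cl_self (f : Cp X) : cl f f = f := by
  apply Subtype.ext
  funext x
  simp [cl]

lemma eval_cont (x : X) : Continuous (fun h : Cp X => h.1 x) :=
  (continuous_apply x).comp continuous_subtype_val

lemma cl_cont (f : Cp X) : Continuous (cl f) := by
  refine Continuous.subtype_mk (continuous_pi fun x => ?_) _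
  exact continuous_const.add (continuous_const.max (continuous_const.min
    ((eval_cont x).sub continuous_const)))

theorem main [T2Space X] [CompletelyRegularSpace X]
    (h : ∀ D : Set (Cp X), D.Countable → DiscreteTopology D → FrechetUrysohnSpace (closure D))
    (E : Set (Cp X)) (hE : E.Countable) (A : Set (Cp X)) (hA : A ⊆ closure E) (f : Cp X)
    (hf : f ∈ closure A) : ∃ a : ℕ → Cp X, (∀ n, a n ∈ A) ∧ Tendsto a atTop (𝓝 f) := by
  rcases finite_or_infinite X with hX | hX
  · exact mem_closure_iff_seq_limit.1 hf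
  have hAne : A.Nonempty := closure_nonempty_iff.1 ⟨f, hf⟩
  have hEne : E.Nonempty := closure_nonempty_iff.1 (hAne.mono hA)
  obtain ⟨e, he⟩ := hE.exists_eq_range hEne
  obtain ⟨U, hUinf, hUo, hUd⟩ := exists_seq_infinite_isOpen_pairwise_disjoint X
  have hpt : ∀ n, ∃ x, x ∈ U n := fun n => (hUinf n).nonempty
  choose pt hpt using hpt
  have hg : ∀ n, ∃ g : X → ℝ, Continuous g ∧ g (pt n) = 1 ∧ (∀ x, x ∉ U n → g x = 0) := by
    intro n
    obtain ⟨φ, hφ, h0, h1⟩ := CompletelyRegularSpace.completely_regular (pt n) (U n)ᶜ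
      (hUo n).isClosed_compl (fun hx => hx (hpt n))
    refine ⟨fun x => 1 - (φ x : ℝ), continuous_const.sub (continuous_subtype_val.comp hφ), ?_, ?_⟩
    · simp [h0]
    · intro x hx
      have := h1 hx
      simp [this]
  choose g hgc hg1 hg0 using hg
  let d : ℕ × ℕ → Cp X := fun q =>
    ⟨fun x => (cl f (e q.1)).1 x + 3 * g (Nat.pair q.1 q.2) x,
      (cl f (e q.1)).2.add (continuous_const.mul (hgc _))⟩
  have hcl1 : ∀ (a : Cp X) (x : X), (cl f a).1 x ≤ f.1 x + 1 := by
    intro a x
    simp only [cl]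
    have : max (-1) (min 1 (a.1 x - f.1 x)) ≤ 1 := max_le (by norm_num) (min_le_left _ _)
    linarith
  have hcl2 : ∀ (a : Cp X) (x : X), f.1 x - 1 ≤ (cl f a).1 x := by
    intro a x
    simp only [cl]
    have : -1 ≤ max (-1) (min 1 (a.1 x - f.1 x)) := le_max_left _ _
    linarith
  have hmem : ∀ m n, m ≠ n → pt n ∉ U m := by
    intro m n hmn hx
    exact Set.disjoint_left.1 (hUd hmn) hx (hpt n)
  -- D is discrete
  have hD : DiscreteTopology (range d) := by
    rw [discreteTopology_subtype_iff']
    rintro _ ⟨q, rfl⟩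
    refine ⟨{k : Cp X | f.1 (pt (Nat.pair q.1 q.2)) + 3 / 2 < k.1 (pt (Nat.pair q.1 q.2))},
      isOpen_lt continuous_const (eval_cont _), ?_⟩
    apply Set.Subset.antisymm
    · rintro _ ⟨hk, ⟨r, rfl⟩⟩
      by_cases hqr : r = q
      · rw [hqr]; rfl
      · exfalso
        have hne : Nat.pair r.1 r.2 ≠ Nat.pair q.1 q.2 := by
          intro hp
          rw [Nat.pair_eq_pair] at hp
          exact hqr (Prod.ext hp.1 hp.2)
        have h0 := hg0 (Nat.pair r.1 r.2) _ (hmem _ _ hne)
        have h1 := hcl1 (e r.1) (pt (Nat.pair q.1 q.2))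
        have hk' : f.1 (pt (Nat.pair q.1 q.2)) + 3 / 2 <
          (cl f (e r.1)).1 (pt (Nat.pair q.1 q.2)) +
            3 * g (Nat.pair r.1 r.2) (pt (Nat.pair q.1 q.2)) := hk
        rw [h0] at hk'
        linarith
    · rintro _ rfl
      refine ⟨?_, ⟨q, rfl⟩⟩
      change f.1 (pt (Nat.pair q.1 q.2)) + 3 / 2 <
          (cl f (e q.1)).1 (pt (Nat.pair q.1 q.2)) +
            3 * g (Nat.pair q.1 q.2) (pt (Nat.pair q.1 q.2))
      have h1 := hcl2 (e q.1) (pt (Nat.pair q.1 q.2))
      rw [hg1]
      linarith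
  have hFU := h (range d) (countable_range d) hD
  -- the cut-offs of members of E are limits of members of D
  have hlim : ∀ n, cl f (e n) ∈ closure (range d) := by
    intro n
    refine mem_closure_of_tendsto (f := fun k : ℕ => d (n, k)) (b := atTop) ?_
      (Eventually.of_forall fun k => ⟨(n, k), rfl⟩)
    rw [tendsto_cp]
    intro x
    have hev : ∀ᶠ k : ℕ in atTop, (d (n, k)).1 x = (cl f (e n)).1 x := by
      by_cases hex : ∃ k0, x ∈ U (Nat.pair n k0)
      · obtain ⟨k0, hk0⟩ := hex
        filter_upwards [eventually_gt_atTop k0] with k hk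
        have hne : Nat.pair n k0 ≠ Nat.pair n k := by
          intro hp
          rw [Nat.pair_eq_pair] at hp
          omega
        have hxk : x ∉ U (Nat.pair n k) := fun hx => Set.disjoint_left.1 (hUd hne) hk0 hx
        change (cl f (e n)).1 x + 3 * g (Nat.pair n k) x = _
        rw [hg0 _ _ hxk]
        ring
      · push Not at hex
        refine Eventually.of_forall fun k => ?_
        change (cl f (e n)).1 x + 3 * g (Nat.pair n k) x = _
        rw [hg0 _ _ (hex k)]
        ring
    exact (tendsto_congr' hev).2 tendsto_const_nhds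
  have hclE : ∀ a ∈ closure E, cl f a ∈ closure (range d) := by
    intro a ha
    have h1 : cl f a ∈ closure (cl f '' E) :=
      image_closure_subset_closure_image (cl_cont f) ⟨a, ha, rfl⟩
    refine closure_minimal ?_ isClosed_closure h1
    rintro _ ⟨b, hb, rfl⟩
    rw [he] at hb
    obtain ⟨n, rfl⟩ := hb
    exact hlim n
  have hfA : cl f f ∈ closure (cl f '' A) :=
    image_closure_subset_closure_image (cl_cont f) ⟨f, hf, rfl⟩
  have hfD : cl f f ∈ closure (range d) :=
    hclE f (closure_minimal hA isClosed_closure hf)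
  -- pass to the subspace closure (range d)
  let S : Set (closure (range d)) := Subtype.val ⁻¹' (cl f '' A)
  have hSimg : Subtype.val '' S = cl f '' A := by
    rw [Subtype.image_preimage_coe, Set.inter_eq_right]
    rintro _ ⟨a, ha, rfl⟩
    exact hclE a (hA ha)
  have hfS : (⟨cl f f, hfD⟩ : closure (range d)) ∈ closure S := by
    rw [closure_subtype, hSimg]
    exact hfA
  obtain ⟨s, hs, hst⟩ := mem_closure_iff_seq_limit.1 hfS
  have hs' : ∀ n, ∃ a ∈ A, cl f a = (s n).1 := fun n => hs n
  choose a haA hacl using hs'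
  refine ⟨a, haA, ?_⟩
  have hst' : Tendsto (fun n => (s n).1) atTop (𝓝 (cl f f)) :=
    (continuous_subtype_val.tendsto _).comp hst
  rw [cl_self, tendsto_cp] at hst'
  rw [tendsto_cp]
  intro x
  have hx := hst' x
  have hev : ∀ᶠ n in atTop, |((s n).1).1 x - f.1 x| < 1 := by
    have h0 : Tendsto (fun n => |((s n).1).1 x - f.1 x|) atTop (𝓝 |f.1 x - f.1 x|) :=
      (hx.sub tendsto_const_nhds).abs
    rw [sub_self, abs_zero] at h0
    exact h0.eventually (gt_mem_nhds one_pos)
  have hev2 : ∀ᶠ n in atTop, ((s n).1).1 x = (a n).1 x := by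
    filter_upwards [hev] with n hn
    rw [← hacl n] at hn ⊢
    simp only [cl] at hn ⊢
    rw [add_sub_cancel_left, abs_lt] at hn
    have h1 : max (-1) (min 1 ((a n).1 x - f.1 x)) = min 1 ((a n).1 x - f.1 x) := by
      rcases max_cases (-1) (min 1 ((a n).1 x - f.1 x)) with hc | hc
      · exfalso
        linarith [hc.1, hn.1]
      · exact hc.1
    have h2 : min 1 ((a n).1 x - f.1 x) = (a n).1 x - f.1 x := by
      rcases min_cases 1 ((a n).1 x - f.1 x) with hc | hc
      · exfalso
        rw [h1, hc.1] at hn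
        linarith [hn.2]
      · exact hc.1
    rw [h1, h2]
    ring
  exact (tendsto_congr' hev2).1 hx

/-- If closures of countable discrete subsets of `C_p(X)` are Frechet-Urysohn, then closures of
all countable subsets are, and `C_p(X)` itself is as soon as it is separable or countably tight. -/
theorem result (X : Type*) [TopologicalSpace X] [T2Space X] [CompletelyRegularSpace X]
    (h : ∀ D : Set (Cp X), D.Countable → DiscreteTopology D →
      FrechetUrysohnSpace (closure D)) :
    (∀ E : Set (Cp X), E.Countable → FrechetUrysohnSpace (closure E)) ∧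
    (TopologicalSpace.SeparableSpace (Cp X) → FrechetUrysohnSpace (Cp X)) ∧
    ((∀ (A : Set (Cp X)) (f : Cp X), f ∈ closure A →
        ∃ B : Set (Cp X), B ⊆ A ∧ B.Countable ∧ f ∈ closure B) →
      FrechetUrysohnSpace (Cp X)) := by
  refine ⟨?_, ?_, ?_⟩
  · intro E hE
    refine ⟨fun s f hf => ?_⟩
    rw [closure_subtype] at hf
    obtain ⟨a, ha, hlim⟩ := main h E hE (Subtype.val '' s)
      (by rintro _ ⟨y, _, rfl⟩; exact y.2) f.1 hf
    choose b hb hba using ha
    refine ⟨b, hb, ?_⟩
    rw [tendsto_subtype_rng]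
    have : (fun n => (b n : Cp X)) = a := funext hba
    rw [this]
    exact hlim
  · intro hsep
    obtain ⟨E, hE, hEd⟩ := TopologicalSpace.exists_countable_dense (Cp X)
    refine ⟨fun s f hf => ?_⟩
    obtain ⟨a, ha, hlim⟩ := main h E hE s (by rw [hEd.closure_eq]; exact subset_univ _) f hf
    exact ⟨a, ha, hlim⟩
  · intro ht
    refine ⟨fun s f hf => ?_⟩
    obtain ⟨B, hBs, hB, hfB⟩ := ht s f hf
    obtain ⟨a, ha, hlim⟩ := main h B hB B subset_closure f hfB
    exact ⟨a, fun n => hBs (ha n), hlim⟩

end Pool.Agent.Results.MP_23bd8d_gt.SeparablePart
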